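import Pool.Agent.Run7.h735.CP.Card

/-!
# Generalized eigenspaces of powers, level by level
-/

set_option autoImplicit false

namespace Pool.Agent.Run7.h735.CF

open Finset Polynomial Module Pool.Agent.Y134.Cyc Pool.Agent.Y134.Two Pool.Agent.Run7.h735.CP

section
variable {E : Type} [Field E] [DecidableEq E]

/-- The number of the `x` in `A` with `x ^ m = Q ^ m`, where only the divisors of `m` are used. -/
theorem card_le_level {p : ℕ} (hp : p.Prime) (A : Multiset E) {Q : E} (hQ : Q ≠ 0)
    {H : (ZMod p)[X]}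
    (hkey : ∀ (M : ℕ) (ζ : E) (b : ℕ), 0 < M → ¬ p ∣ M → IsPrimitiveRoot ζ M →
      cyclotomic M (ZMod p) ^ (∑ η ∈ nthRootsFinset (p ^ b) (1 : E), A.count (Q * (ζ * η))) ∣ H)
    {m : ℕ} (hm : 0 < m) (c : ℕ → ℕ)
    (hc : ∀ M : ℕ, M ∣ m → ¬ p ∣ M → ¬ cyclotomic M (ZMod p) ^ (c M + 1) ∣ H) :
    (A.filter fun x => x ^ m = Q ^ m).card ≤
      ∑ M ∈ m.divisors.filter (fun M => ¬ p ∣ M), M.totient * c M := by
  classical
  obtain ⟨b, m', hm', hmb⟩ := Nat.exists_eq_pow_mul_and_not_dvd hm.ne' p hp.ne_one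
  let I : Finset (Σ _ : ℕ, E × E) := (m.divisors.filter fun M => ¬ p ∣ M).sigma fun M =>
    primitiveRoots M E ×ˢ nthRootsFinset (p ^ b) (1 : E)
  have h1 := card_filter_le_sum A (fun x => x ^ m = Q ^ m) I (fun i => Q * (i.2.1 * i.2.2)) (by
    intro x _ hx
    have h5 : (x / Q) ^ m = 1 := by rw [div_pow, hx, div_self (pow_ne_zero m hQ)]
    obtain ⟨M, e, ζ, η, hMm, hMp, hζ, hη, hy⟩ := decomp hp hm h5
    have hx' : x = Q * (ζ * η) := by rw [← hy]; field_simp
    have hM : 0 < M := Nat.pos_of_dvd_of_pos hMm hm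
    refine ⟨⟨M, ζ, η⟩, ?_, hx'.symm⟩
    rw [mem_sigma, mem_filter, Nat.mem_divisors, mem_product, mem_primitiveRoots hM,
      mem_nthRootsFinset (pow_pos hp.pos b)]
    refine ⟨⟨⟨hMm, hm.ne'⟩, hMp⟩, hζ, ?_⟩
    have h6 : η ^ m = 1 := by
      have h7 : ζ ^ m = 1 := by
        obtain ⟨t, ht⟩ := hMm
        rw [ht, pow_mul, hζ.pow_eq_one, one_pow]
      rw [hy, mul_pow, h7, one_mul] at h5
      exact h5
    exact mem_p_roots hp hmb hm' h6 hη)
  refine h1.trans ?_
  rw [sum_sigma]
  refine sum_le_sum fun M hM => ?_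
  rw [mem_filter, Nat.mem_divisors] at hM
  have hM0 : 0 < M := Nat.pos_of_dvd_of_pos hM.1.1 hm
  rw [sum_product]
  have h3 : ∀ ζ ∈ primitiveRoots M E,
      ∑ η ∈ nthRootsFinset (p ^ b) (1 : E), A.count (Q * (ζ * η)) ≤ c M := by
    intro ζ hζ
    rw [mem_primitiveRoots hM0] at hζ
    by_contra hlt
    rw [not_le] at hlt
    exact hc M hM.1.1 hM.2 ((pow_dvd_pow _ hlt).trans (hkey M ζ b hM0 hM.2 hζ))
  refine (sum_le_sum h3).trans ?_
  rw [sum_const, smul_eq_mul]
  refine Nat.mul_le_mul_right _ ?_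
  by_cases hne : (primitiveRoots M E).Nonempty
  · obtain ⟨ζ, hζ⟩ := hne
    rw [mem_primitiveRoots hM0] at hζ
    exact hζ.card_primitiveRoots.le
  · rw [not_nonempty_iff_eq_empty.1 hne, card_empty]
    exact Nat.zero_le _

end

section
variable {E : Type} [Field E] [IsAlgClosed E] {V : Type} [AddCommGroup V] [Module E V]
  [FiniteDimensional E V]

/-- The dimension of the generalized eigenspace of the `m`-th power. -/
theorem finrank_gen_le_card [DecidableEq E] (g : Module.End E V) (m : ℕ) (c : E) :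
    finrank E (Module.End.maxGenEigenspace (g ^ m) c) ≤
      (g.charpoly.roots.filter fun x => x ^ m = c).card := by
  set N : Submodule E V := Module.End.maxGenEigenspace (g ^ m) c with hNdef
  have hcomm : Commute (g ^ m) g := (Commute.refl g).pow_left m
  have hN : N ≤ N.comap g := fun x hx =>
    Module.End.mapsTo_maxGenEigenspace_of_comm hcomm c hx
  have h2 := Pool.Agent.W522.C.charpoly_eq_mul g N hN
  have h3 : ((g.restrict hN).charpoly).roots ≤ g.charpoly.roots := by
    apply Polynomial.roots.le_of_dvd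
    · exact (LinearMap.charpoly_monic g).ne_zero
    · rw [h2]
      exact dvd_mul_right _ _
  have h4 : ((g.restrict hN).charpoly).roots ≤ (g.charpoly.roots.filter fun x => x ^ m = c) := by
    rw [Multiset.le_filter]
    refine ⟨h3, fun x hx => ?_⟩
    -- an eigenvector
    have h5 : Module.End.HasEigenvalue (g.restrict (p := N) (q := N) fun x hx => hN hx) x := by
      rw [Module.End.hasEigenvalue_iff_isRoot_charpoly]
      exact (mem_roots (LinearMap.charpoly_monic _).ne_zero).1 hx
    obtain ⟨v, hv⟩ := h5.exists_hasEigenvector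
    have hv1 : g (v : V) = x • (v : V) := by
      have := congrArg Subtype.val hv.apply_eq_smul
      simpa using this
    have hv2 : (v : V) ≠ 0 := fun h => hv.2 (Subtype.ext h)
    have hpow : ∀ i : ℕ, (g ^ i) (v : V) = x ^ i • (v : V) := by
      intro i
      induction i with
      | zero => simp
      | succ i ih => rw [pow_succ', Module.End.mul_apply, ih, map_smul, hv1, smul_smul, pow_succ]
    have h6 : (v : V) ∈ Module.End.maxGenEigenspace (g ^ m) (x ^ m) := by
      have h7 : (v : V) ∈ Module.End.eigenspace (g ^ m) (x ^ m) := by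
        rw [Module.End.mem_eigenspace_iff]
        exact hpow m
      exact (Module.End.genEigenspace (g ^ m) (x ^ m)).mono le_top h7
    by_contra hne
    have h8 := Module.End.disjoint_genEigenspace (g ^ m) hne ⊤ ⊤
    have h9 : (v : V) ∈ (⊥ : Submodule E V) := by
      rw [← disjoint_iff.1 h8]
      exact ⟨h6, v.2⟩
    exact hv2 ((Submodule.mem_bot E).1 h9)
  have h5 := Multiset.card_le_card h4
  have h6 := splits_iff_card_roots.1 (IsAlgClosed.splits (g.restrict hN).charpoly)
  rw [h6, LinearMap.charpoly_natDegree] at h5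
  exact h5

/-- The dimension of the generalized eigenspace for a direct sum of stable parts. -/
theorem finrank_gen_le_sum {n : ℕ} (Ψ : Module.End E V) (W : Fin n → Submodule E V)
    (hW : DirectSum.IsInternal W) (hstab : ∀ j, ∀ v ∈ W j, Ψ v ∈ W j) {m : ℕ} {c : E} {B : ℕ}
    (hB : ∀ j, finrank E (Module.End.maxGenEigenspace ((Ψ.restrict (hstab j)) ^ m) c) ≤ B) :
    finrank E (Module.End.maxGenEigenspace (Ψ ^ m) c) ≤ n * B := by
  classical
  set N := Module.End.maxGenEigenspace (Ψ ^ m) c with hNdef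
  -- the components
  let e : (DirectSum (Fin n) fun j => W j) ≃ₗ[E] V :=
    LinearEquiv.ofBijective (DirectSum.coeLinearMap W) hW
  let π : ∀ j, V →ₗ[E] W j := fun j => (DirectSum.component E (Fin n) (fun j => W j) j) ∘ₗ
    e.symm.toLinearMap
  have hsum : ∀ v, ∑ j, (π j v : V) = v := by
    intro v
    have h1 : e (e.symm v) = v := e.apply_symm_apply v
    conv_rhs => rw [← h1]
    change _ = DirectSum.coeLinearMap W (e.symm v)
    rw [DirectSum.coeLinearMap_eq_dfinsuppSum, DFinsupp.sum_eq_sum_fintype]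
    · rfl
    · intro i
      rfl
  have huniq : ∀ (w : ∀ j, W j) (j : Fin n), π j (∑ i, (w i : V)) = w j := by
    intro w j
    have h1 : ∑ i, (w i : V) = e (∑ i, DirectSum.lof E (Fin n) (fun j => W j) i (w i)) := by
      rw [map_sum]
      refine sum_congr rfl fun i _ => ?_
      change _ = DirectSum.coeLinearMap W _
      rw [DirectSum.coeLinearMap_lof]
    rw [h1]
    change DirectSum.component E (Fin n) (fun j => W j) j (e.symm (e _)) = _
    rw [LinearEquiv.symm_apply_apply, map_sum]
    rw [sum_eq_single j]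
    · exact DirectSum.component.lof_self E (M := fun j => W j) j (w j)
    · intro i _ hij
      rw [DirectSum.component.of]
      exact dif_neg hij
    · intro h
      exact absurd (mem_univ j) h
  have hcomm : ∀ j v, π j (Ψ v) = Ψ.restrict (hstab j) (π j v) := by
    intro j v
    have h1 : Ψ v = ∑ i, ((Ψ.restrict (hstab i) (π i v) : W i) : V) := by
      conv_lhs => rw [← hsum v, map_sum]
      rfl
    rw [h1]
    exact huniq (fun i => Ψ.restrict (hstab i) (π i v)) j
  have hpow : ∀ j (i : ℕ) v, π j ((Ψ ^ i) v) = ((Ψ.restrict (hstab j)) ^ i) (π j v) := by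
    intro j i
    induction i with
    | zero => intro v; rfl
    | succ i ih =>
      intro v
      rw [pow_succ, Module.End.mul_apply, ih, hcomm, pow_succ, Module.End.mul_apply]
  have hpow' : ∀ j (i : ℕ) v, π j (((Ψ ^ m - c • 1) ^ i) v) =
      (((Ψ.restrict (hstab j)) ^ m - c • 1) ^ i) (π j v) := by
    intro j i
    induction i with
    | zero => intro v; rfl
    | succ i ih =>
      intro v
      rw [pow_succ, Module.End.mul_apply, ih, pow_succ, Module.End.mul_apply]
      congr 1
      rw [LinearMap.sub_apply, map_sub, hpow, LinearMap.sub_apply, LinearMap.smul_apply,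
        LinearMap.smul_apply, map_smul]
      rfl
  let K : ∀ j, Submodule E (W j) := fun j =>
    Module.End.maxGenEigenspace ((Ψ.restrict (hstab j)) ^ m) c
  let T : N →ₗ[E] (∀ j, K j) := LinearMap.pi fun j =>
    ((π j).comp N.subtype).codRestrict (K j) fun x => by
      obtain ⟨i, hi⟩ := (Module.End.mem_maxGenEigenspace _ _ _).1 x.2
      refine (Module.End.mem_maxGenEigenspace _ _ _).2 ⟨i, ?_⟩
      change (((Ψ.restrict (hstab j)) ^ m - c • 1) ^ i) (π j x) = 0
      rw [← hpow', hi, map_zero]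
  have hT : Function.Injective T := by
    intro x y hxy
    apply Subtype.ext
    rw [← hsum x, ← hsum y]
    refine sum_congr rfl fun j _ => ?_
    have h1 := congrFun hxy j
    exact congrArg (fun z : K j => ((z : W j) : V)) h1
  refine (LinearMap.finrank_le_finrank_of_injective hT).trans ?_
  rw [Module.finrank_pi_fintype]
  refine (sum_le_sum fun j _ => hB j).trans ?_
  rw [sum_const, card_univ, Fintype.card_fin, smul_eq_mul]

/-- **The bound at the level `m`.** -/
theorem finrank_gen_le [CharZero E] {p : ℕ} (hp : p.Prime) {n : ℕ} (Ψ : Module.End E V)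
    (W : Fin n → Submodule E V)
    (hW : DirectSum.IsInternal W) (hstab : ∀ j, ∀ v ∈ W j, Ψ v ∈ W j) {Q : E} (hQ : Q ≠ 0)
    {H : (ZMod p)[X]}
    (hkey : ∀ (j : Fin n) (M b : ℕ) (ζ : E), 0 < M → ¬ p ∣ M → IsPrimitiveRoot ζ M →
      cyclotomic M (ZMod p) ^ (∑ η ∈ nthRootsFinset (p ^ b) (1 : E),
        finrank E (Module.End.maxGenEigenspace (Ψ.restrict (hstab j)) (Q * (ζ * η)))) ∣ H)
    {m : ℕ} (hm : 0 < m) (c : ℕ → ℕ)
    (hc : ∀ M : ℕ, M ∣ m → ¬ p ∣ M → ¬ cyclotomic M (ZMod p) ^ (c M + 1) ∣ H) :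
    finrank E (Module.End.maxGenEigenspace (Ψ ^ m) (Q ^ m)) ≤
      n * ∑ M ∈ m.divisors.filter (fun M => ¬ p ∣ M), M.totient * c M := by
  classical
  refine finrank_gen_le_sum Ψ W hW hstab (m := m) (c := Q ^ m) fun j => ?_
  refine (finrank_gen_le_card (Ψ.restrict (hstab j)) m (Q ^ m)).trans ?_
  refine card_le_level hp _ hQ (fun M ζ b hM hMp hζ => ?_) hm c hc
  have h3 := hkey j M b ζ hM hMp hζ
  have h4 : ∑ η ∈ nthRootsFinset (p ^ b) (1 : E),
      finrank E (Module.End.maxGenEigenspace (Ψ.restrict (hstab j)) (Q * (ζ * η)))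
      = ∑ η ∈ nthRootsFinset (p ^ b) (1 : E),
        (Ψ.restrict (hstab j)).charpoly.roots.count (Q * (ζ * η)) := by
    refine sum_congr rfl fun η _ => ?_
    rw [LinearMap.finrank_maxGenEigenspace_eq, count_roots]
  rwa [h4] at h3

end

end Pool.Agent.Run7.h735.CF
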