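import Pool.Agent.Run7.h735.CP.Defs

/-!
# Cyclic coverings of the plane over finite fields: definitions
-/

set_option autoImplicit false

universe u

namespace Pool.Agent.Run7.h735.CF

open Polynomial Pool.Agent.Y134.TF Pool.Agent.TH125.Gal

/-- For the divisors `M` of `m` which are prime to `p`, the cyclotomic polynomial `Φ_M` divides `H` at most `c M`
times. -/
def DividesAt (p : ℕ) (H : (ZMod p)[X]) (c : ℕ → ℕ) (m : ℕ) : Prop :=
  ∀ M : ℕ, M ∣ m → ¬ p ∣ M → ¬ cyclotomic M (ZMod p) ^ (c M + 1) ∣ H

/-- The number `(p ^ s - 1) ∑ φ(M) c(M)`, the sum over the divisors `M` of `m` which are prime to `p`. -/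
noncomputable def levelBound (p s : ℕ) (c : ℕ → ℕ) (m : ℕ) : ℕ :=
  (p ^ s - 1) * ∑ M ∈ m.divisors.filter (fun M => ¬ p ∣ M), M.totient * c M

section
variable {K A : Type} [Field K] [Ring A] [Algebra K A] {Γ : Type} [Group Γ]

/-- The generalized eigenspace of `g` for the eigenvalue `χ g` in the subspace `U`. -/
noncomputable def eigenPart (χ : Γ →* Kˣ) (act : Γ →* (A ≃ₐ[K] A)) (U : Submodule K A) (g : Γ) :
    Submodule K A :=
  Module.End.maxGenEigenspace (act g).toLinearMap (χ g : K) ⊓ U

/-- The span of the classes of divisors over the field given by `g`: of the elements `a` of `C 1` with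
`h a = χ h a` for all powers `h` of `g`. -/
noncomputable def divisorSpan (χ : Γ →* Kˣ) (C : ℕ → Set A) (act : Γ →* (A ≃ₐ[K] A)) (g : Γ) :
    Submodule K A :=
  Submodule.span K (TP.cycleClasses χ C act (Subgroup.zpowers g) 1)

/-- The elements `x` of `U` with `g x = χ g x` are the combinations of the classes of divisors over the field given by
`g`. -/
def InvariantsSpanned (χ : Γ →* Kˣ) (C : ℕ → Set A) (act : Γ →* (A ≃ₐ[K] A)) (U : Submodule K A)
    (g : Γ) : Prop :=
  ∀ x : A, (x ∈ U ∧ act g x = (χ g : K) • x) ↔ x ∈ divisorSpan χ C act g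

end

open Pool.Agent.H914 Pool.Agent.H914.VarClass Pool.Agent.H914.VarClass.Obj
  Pool.Agent.H914.WeilCohomology Pool.Agent.H281R3.HT

variable {k : Type u} [Field k] {𝒱 : VarClass k} {ops : CycleOps 𝒱}
  {W : WeilCohomology.{u, 0} ops} {Γ : Type} [Group Γ]

/-- The multiplicity of `χ g` as an eigenvalue of `g` on `H^2`. -/
noncomputable def multiplicity (χ : Γ →* W.Kˣ) (S : PVar W Γ) (g : Γ) : ℕ :=
  CP.rk (eigenPart χ S.act (W.gr S.X 2) g)

/-- The multiplicity of `χ g` as an eigenvalue of `g` on `S.P`. -/
noncomputable def multiplicityIn (χ : Γ →* W.Kˣ) (S : PVar W Γ) (g : Γ) : ℕ :=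
  CP.rk (eigenPart χ S.act S.P g)

/-- The Picard number over the field given by `g`. -/
noncomputable def picardNumber (χ : Γ →* W.Kˣ) (S : PVar W Γ) (g : Γ) : ℕ :=
  CP.rk (divisorSpan χ (algClasses W S.X) S.act g)

/-- The dimension of the space of the combinations of classes of divisors over the field given by `g` which are in
`S.P`. -/
noncomputable def picardIn (χ : Γ →* W.Kˣ) (S : PVar W Γ) (g : Γ) : ℕ :=
  CP.rk (S.P ⊓ divisorSpan χ (algClasses W S.X) S.act g)

/-- Conjecture T for the surface `S` over the field given by the Frobenius element `g`: the Picard number is the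
multiplicity of the eigenvalue `χ g` of `g` on `H^2`. -/
def ConjectureT (χ : Γ →* W.Kˣ) (S : PVar W Γ) (g : Γ) : Prop :=
  picardNumber χ S g = multiplicity χ S g

/-- The Tate conjecture for divisors for `S` over the field given by the Frobenius element `g`: the classes `x` in `H^2`
with `g x = χ g x` are the combinations of the classes of divisors over this field, and the Picard number is the
multiplicity of the eigenvalue `χ g` of `g` on `H^2`. -/
structure TateForDivisors (χ : Γ →* W.Kˣ) (S : PVar W Γ) (g : Γ) : Prop where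
  invariants : InvariantsSpanned χ (algClasses W S.X) S.act (W.gr S.X 2) g
  multiplicity : ConjectureT χ S g

/-- The multiplicity of the eigenvalue `χ g` of `g` on `S.P` is at most `B`; if the divisors over the field given by `g`
attain this number then the Tate conjecture for divisors holds over this field; and if `B = 0` then it holds. -/
structure BoundAt (χ : Γ →* W.Kˣ) (S : PVar W Γ) (g : Γ) (B : ℕ) : Prop where
  bound : multiplicityIn χ S g ≤ B
  attained : B ≤ picardIn χ S g → TateForDivisors χ S g
  zero : B = 0 → TateForDivisors χ S g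

end Pool.Agent.Run7.h735.CF
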