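import Pool.Agent.Run7.h735.CF.Defs
import Pool.Agent.Run7.h735.CF.Card
import Pool.Agent.Run7.h735.CP.Main

/-!
# Conjecture T level by level
-/

set_option autoImplicit false

universe u

namespace Pool.Agent.Run7.h735.CF

open Polynomial Module Pool.Agent.Y134.TF Pool.Agent.Y130 Pool.Agent.TH125.Gal
  Pool.Agent.TH118.SG Pool.Agent.Y134.Cyc Pool.Agent.Run7.h735.TP Pool.Agent.Run7.h735.CP
open Pool.Agent.H914 Pool.Agent.H914.VarClass Pool.Agent.H914.VarClass.Obj
  Pool.Agent.H914.WeilCohomology Pool.Agent.H281R3.HT Pool.Agent.W552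

/-- A generalized eigenvector of `g` for `c` which is an eigenvector of `g ^ m` is an eigenvector. -/
lemma eigen_of_pow {K V : Type} [Field K] [CharZero K] [AddCommGroup V] [Module K V]
    (g : Module.End K V) {c : K} (hc : c ≠ 0) {m : ℕ} (hm : 0 < m) {a : V}
    (h1 : (g ^ m) a = c ^ m • a) {N : ℕ} (h2 : ((g - c • 1) ^ N) a = 0) : g a = c • a := by
  -- the polynomials
  let R : K[X] := ∑ i ∈ Finset.range m, X ^ i * C c ^ (m - 1 - i)
  have hR : R * (X - C c) = X ^ m - C c ^ m := (Commute.all (X : K[X]) (C c)).geom_sum₂_mul m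
  have hRc : R.eval c ≠ 0 := by
    have e1 : R.eval c = (m : K) * c ^ (m - 1) := by
      change (∑ i ∈ Finset.range m, X ^ i * C c ^ (m - 1 - i) : K[X]).eval c = _
      rw [eval_finset_sum]
      have e2 : ∀ i ∈ Finset.range m, (X ^ i * C c ^ (m - 1 - i) : K[X]).eval c = c ^ (m - 1) := by
        intro i hi
        rw [Finset.mem_range] at hi
        rw [eval_mul, eval_pow, eval_X, eval_pow, eval_C, ← pow_add]
        congr 1
        omega
      rw [Finset.sum_congr rfl e2, Finset.sum_const, Finset.card_range, nsmul_eq_mul]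
    rw [e1]
    exact mul_ne_zero (Nat.cast_ne_zero.2 hm.ne') (pow_ne_zero _ hc)
  have hcop : IsCoprime R ((X - C c) ^ N) := by
    apply IsCoprime.pow_right
    apply IsCoprime.symm
    refine (irreducible_X_sub_C c).coprime_iff_not_dvd.2 ?_
    rw [dvd_iff_isRoot]
    exact hRc
  obtain ⟨u, w, huw⟩ := hcop
  have ha : aeval g (X - C c : K[X]) = g - c • 1 := by
    rw [map_sub, aeval_X, aeval_C]
    rfl
  have h3 : aeval g (R * (X - C c)) a = 0 := by
    rw [hR, map_sub, map_pow, aeval_X, map_pow, aeval_C, LinearMap.sub_apply, h1]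
    have e3 : ((algebraMap K (Module.End K V)) c ^ m) a = c ^ m • a := by
      rw [← map_pow]
      rfl
    rw [e3, sub_self]
  have h4 : aeval g ((X - C c) ^ N * (X - C c)) a = 0 := by
    rw [mul_comm, map_mul, Module.End.mul_apply, map_pow, ha, h2, map_zero]
  have h5 : aeval g (X - C c) a = 0 := by
    have e4 : u * (R * (X - C c)) + w * ((X - C c) ^ N * (X - C c)) = (X - C c : K[X]) := by
      linear_combination (X - C c) * huw
    rw [← e4, map_add, map_mul (aeval g) u, map_mul (aeval g) w, LinearMap.add_apply,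
      Module.End.mul_apply, Module.End.mul_apply, h3, h4, map_zero, map_zero, add_zero]
  rw [ha, LinearMap.sub_apply, sub_eq_zero] at h5
  exact h5

variable {k : Type u} [Field k] {𝒱 : VarClass k} {ops : CycleOps 𝒱}
  {W : WeilCohomology.{u, 0} ops} {Γ : Type} [Group Γ] {χ : Γ →* W.Kˣ} {S : PVar W Γ}

/-- The powers of an element. -/
lemma fix_zpowers {g : Γ} {x : W.H S.X} (h : S.act g x = (χ g : W.K) • x) :
    ∀ t ∈ Subgroup.zpowers g, S.act t x = (χ t : W.K) • x := by
  rintro t ⟨i, rfl⟩
  have hinv : S.act g⁻¹ x = ((χ g⁻¹ : W.Kˣ) : W.K) • x := by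
    have h2 : S.act g (((χ g⁻¹ : W.Kˣ) : W.K) • x) = x := by
      rw [map_smul, h, smul_smul, ← Units.val_mul, ← map_mul, inv_mul_cancel, map_one,
        Units.val_one, one_smul]
    conv_lhs => rw [← h2]
    rw [← AlgEquiv.mul_apply, ← map_mul, inv_mul_cancel, map_one]
    rfl
  have hstep : ∀ y t : Γ, S.act t x = (χ t : W.K) • x → S.act y x = (χ y : W.K) • x →
      S.act (y * t) x = (χ (y * t) : W.K) • x := by
    intro y t h1 h2
    rw [map_mul, AlgEquiv.mul_apply, h1, map_smul, h2, map_mul, Units.val_mul, smul_smul, mul_comm]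
  change S.act (g ^ i) x = (χ (g ^ i) : W.K) • x
  refine zpow_induction_left (P := fun t => S.act t x = (χ t : W.K) • x) ?_ ?_ ?_ i
  · rw [map_one, map_one, Units.val_one, one_smul]; rfl
  · exact fun t ht => hstep g t ht h
  · exact fun t ht => hstep g⁻¹ t ht hinv

/-- The orthogonal complement of `P` is stable. -/
lemma perp_stable
    (hG : IsGaloisAct χ (W.gr S.X) S.X.dim (W.tr S.X) (algClasses W S.X) S.act) {φ : Γ}
    (hφ : ∀ v ∈ S.P, (S.act φ).toLinearMap v ∈ S.P) {x : W.H S.X}
    (hx : ∀ y ∈ S.P, W.tr S.X (x * y) = 0) : ∀ y ∈ S.P, W.tr S.X (S.act φ x * y) = 0 := by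
  intro y hy
  have hinj : Function.Injective ((S.act φ).toLinearMap.restrict hφ) := by
    intro a b hab
    apply Subtype.ext
    have h1 := congrArg Subtype.val hab
    exact (S.act φ).injective h1
  obtain ⟨z, hz⟩ := (LinearMap.injective_iff_surjective.1 hinj) ⟨y, hy⟩
  have h1 : S.act φ (z : W.H S.X) = y := congrArg Subtype.val hz
  rw [← h1, ← map_mul, hG.tr_act, hx z z.2, mul_zero]

/-- An element which is in `P` and orthogonal to `P` is zero. -/
lemma perp_disjoint {d : ℕ} (h : Cover χ S d) {x : W.H S.X} (hxP : x ∈ S.P)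
    (hx : ∀ y ∈ S.P, W.tr S.X (x * y) = 0) : x = 0 := by
  obtain ⟨A, hA, hAP, ho⟩ := h.sum
  have hA : A ≤ algSpan W S.X := hA
  apply W.nondeg
  intro y
  have hy : y ∈ A ⊔ S.P := by rw [hAP]; exact Submodule.mem_top
  obtain ⟨a', ha', p', hp', rfl⟩ := Submodule.mem_sup.1 hy
  rw [mul_add, map_add, hx p' hp', add_zero, ← alg_comm (hA ha')]
  exact ho a' ha' x hxP

/-- **Conjecture T, if the multiplicity in `P` is at most the rank of the combinations of divisors in `P`.** -/
theorem span_eq (h : Cover χ S 1) {φ : Γ} (hφ : ∀ v ∈ S.P, (S.act φ).toLinearMap v ∈ S.P)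
    {m : ℕ} (hle : multiplicityIn χ S (φ ^ m) ≤ picardIn χ S (φ ^ m)) :
    divisorSpan χ (algClasses W S.X) S.act (φ ^ m) =
      eigenPart χ S.act (W.gr S.X 2) (φ ^ m) := by
  classical
  set g : Γ := φ ^ m with hgdef
  have hG := h.galois
  have hd : S.X.dim = 2 * 1 := h.dim
  have hP : S.P ≤ W.gr S.X 2 := by
    have := h.middle
    rwa [hd] at this
  -- classes of divisors are eigenvectors
  have h1 : divisorSpan χ (algClasses W S.X) S.act g ≤ eigenPart χ S.act (W.gr S.X 2) g := by
    apply Submodule.span_le.2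
    rintro a ⟨ha, hfix⟩
    refine ⟨?_, ?_⟩
    · have h2 : a ∈ Module.End.eigenspace (S.act g).toLinearMap (χ g : W.K) := by
        rw [Module.End.mem_eigenspace_iff]
        have := hfix g (Subgroup.mem_zpowers g)
        rwa [pow_one] at this
      exact (Module.End.genEigenspace _ _).mono le_top h2
    · exact alg_gr ha
  -- the stability of `P` under `g`
  have hpowP : ∀ i : ℕ, ∀ v ∈ S.P, (S.act (φ ^ i)).toLinearMap v ∈ S.P := by
    intro i
    induction i with
    | zero => intro v hv; rw [pow_zero, map_one]; exact hv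
    | succ i ih =>
      intro v hv
      rw [pow_succ', map_mul]
      exact hφ _ (ih v hv)
  have hgP := hpowP m
  -- the combinations of divisors in `P` are the generalized eigenspace in `P`
  have h2 : S.P ⊓ divisorSpan χ (algClasses W S.X) S.act g = eigenPart χ S.act S.P g := by
    apply Submodule.eq_of_le_of_finrank_le
    · rintro x ⟨hx, hx'⟩
      exact ⟨(h1 hx').1, hx⟩
    · exact hle
  refine le_antisymm h1 ?_
  rintro x ⟨hx, hx2⟩
  obtain ⟨A, hA, hAP, ho⟩ := h.sum
  have hA : A ≤ algSpan W S.X := hA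
  have hxA : x ∈ A ⊔ S.P := by rw [hAP]; exact Submodule.mem_top
  obtain ⟨a, ha, y, hy, rfl⟩ := Submodule.mem_sup.1 hxA
  obtain ⟨N, hN⟩ := (Module.End.mem_maxGenEigenspace _ _ _).1 hx
  set T : Module.End W.K (W.H S.X) := (S.act g).toLinearMap - (χ g : W.K) • 1 with hT
  have hTP : ∀ i : ℕ, ∀ v ∈ S.P, (T ^ i) v ∈ S.P := by
    intro i
    induction i with
    | zero => intro v hv; simpa using hv
    | succ i ih =>
      intro v hv
      rw [pow_succ', Module.End.mul_apply]
      exact S.P.sub_mem (hgP _ (ih v hv)) (S.P.smul_mem _ (ih v hv))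
  have hTA : ∀ i : ℕ, ∀ v : W.H S.X, (∀ y ∈ S.P, W.tr S.X (v * y) = 0) →
      ∀ y ∈ S.P, W.tr S.X ((T ^ i) v * y) = 0 := by
    intro i
    induction i with
    | zero => intro v hv; simpa using hv
    | succ i ih =>
      intro v hv
      have h3 := ih v hv
      have h4 := perp_stable hG hgP h3
      intro y hy
      rw [pow_succ', Module.End.mul_apply]
      have h5 : T ((T ^ i) v) = S.act g ((T ^ i) v) - (χ g : W.K) • (T ^ i) v := rfl
      rw [h5, sub_mul, map_sub, h4 y hy, smul_mul_assoc, map_smul, h3 y hy, smul_zero, sub_zero]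
  have h3 : (T ^ N) a + (T ^ N) y = 0 := by
    rw [← map_add]
    exact hN
  have h4 : (T ^ N) y = 0 := by
    refine perp_disjoint h (hTP N y hy) fun z hz => ?_
    have h5 : (T ^ N) y = - (T ^ N) a := by
      rw [eq_neg_iff_add_eq_zero, add_comm]
      exact h3
    rw [h5, neg_mul, map_neg, hTA N a (fun y hy => ho a ha y hy) z hz, neg_zero]
  have h5 : (T ^ N) a = 0 := by rwa [h4, add_zero] at h3
  refine Submodule.add_mem _ ?_ ?_
  · -- the algebraic part
    have h6 : a ∈ W.gr S.X (2 * 1) := by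
      have := (W.gr S.X 2).sub_mem hx2 (hP hy)
      rwa [add_sub_cancel_right] at this
    have h7 := algSpan_gr (hA ha) h6
    obtain ⟨Δ, hΔ, h8⟩ := exists_fix (X := S.toGVar) hG h7
    obtain ⟨n, hn, -, hnΔ⟩ := Δ.exists_pow_mem_of_index_ne_zero hΔ.index_ne_zero g
    have h9 : ((S.act g).toLinearMap ^ n) a = (χ g : W.K) ^ n • a := by
      have e1 : ∀ i : ℕ, ((S.act g).toLinearMap ^ i) a = S.act (g ^ i) a := by
        intro i
        induction i with
        | zero => rw [pow_zero, pow_zero, map_one]; rfl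
        | succ i ih =>
          rw [pow_succ', Module.End.mul_apply, ih, pow_succ', map_mul, AlgEquiv.mul_apply]
          rfl
      rw [e1]
      have e2 : S.act (g ^ n) a = (χ (g ^ n) : W.K) ^ 1 • a := h8 _ hnΔ
      rw [e2, pow_one, map_pow, Units.val_pow_eq_pow_val]
    have h10 := eigen_of_pow (S.act g).toLinearMap (Units.ne_zero (χ g)) hn h9 h5
    have h11 := fix_zpowers (S := S) h10
    exact descend (X := S.toGVar) hG (Δ := Subgroup.zpowers g) h7 (fun t ht => by
      rw [pow_one]
      exact h11 t ht)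
  · -- the part in `P`
    have h6 : y ∈ eigenPart χ S.act S.P g :=
      ⟨(Module.End.mem_maxGenEigenspace _ _ _).2 ⟨N, h4⟩, hy⟩
    rw [← h2] at h6
    exact h6.2

theorem conjectureT_of (h : Cover χ S 1) {φ : Γ}
    (hφ : ∀ v ∈ S.P, (S.act φ).toLinearMap v ∈ S.P)
    {m : ℕ} (hle : multiplicityIn χ S (φ ^ m) ≤ picardIn χ S (φ ^ m)) :
    ConjectureT χ S (φ ^ m) := by
  unfold ConjectureT picardNumber multiplicity
  rw [span_eq h hφ hle]

theorem tateForDivisors_of (h : Cover χ S 1) {φ : Γ}
    (hφ : ∀ v ∈ S.P, (S.act φ).toLinearMap v ∈ S.P)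
    {m : ℕ} (hle : multiplicityIn χ S (φ ^ m) ≤ picardIn χ S (φ ^ m)) :
    TateForDivisors χ S (φ ^ m) := by
  refine ⟨fun x => ⟨?_, ?_⟩, conjectureT_of h hφ hle⟩
  · rintro ⟨h1, h2⟩
    rw [span_eq h hφ hle]
    refine ⟨?_, h1⟩
    have h3 : x ∈ Module.End.eigenspace (S.act (φ ^ m)).toLinearMap (χ (φ ^ m) : W.K) := by
      rw [Module.End.mem_eigenspace_iff]
      exact h2
    exact (Module.End.genEigenspace _ _).mono le_top h3
  · intro hx
    have h1 := hx
    rw [span_eq h hφ hle] at h1
    refine ⟨h1.2, ?_⟩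
    unfold divisorSpan at hx
    induction hx using Submodule.span_induction with
    | mem a ha =>
      have := ha.2 _ (Subgroup.mem_zpowers (φ ^ m))
      rwa [pow_one] at this
    | zero => rw [map_zero, smul_zero]
    | add x y hx' hy' hx hy =>
      have e1 : x ∈ divisorSpan χ (algClasses W S.X) S.act (φ ^ m) := hx'
      have e2 : y ∈ divisorSpan χ (algClasses W S.X) S.act (φ ^ m) := hy'
      rw [span_eq h hφ hle] at e1 e2
      rw [map_add, hx e1, hy e2, smul_add]
    | smul c x hx' hx =>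
      have e1 : x ∈ divisorSpan χ (algClasses W S.X) S.act (φ ^ m) := hx'
      rw [span_eq h hφ hle] at e1
      rw [map_smul, hx e1, smul_comm]

variable [IsAlgClosed W.K] {p s : ℕ} {H : (ZMod p)[X]}

/-- **The bound for the multiplicity.** -/
theorem multiplicityIn_le (hp : p.Prime) (hs : 1 ≤ s) (v : CyclicPlace χ S.act S.P p s H)
    {m : ℕ} (hm : 0 < m) (c : ℕ → ℕ) (hc : DividesAt p H c m) :
    multiplicityIn χ S (v.φ ^ m) ≤ levelBound p s c m := by
  classical
  letI := v.field
  letI := v.fintype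
  obtain ⟨-, hkey, -⟩ := tate_main hp hs v.dvd v.F v.θ v.order v.zeta.P₁ v.zeta.P₂
    v.zeta.roots₁.1 v.zeta.roots₂.1 v.zeta.B₁ v.zeta.B₂ v.zeta.roots₁.2 v.zeta.roots₂.2 v.zeta.curve
    H v.zeta.quotient
    ((S.act v.φ).toLinearMap.restrict v.stable) v.parts.part v.parts.internal v.parts.stable
    v.parts.trace
  have hq0 : (Fintype.card v.κ : W.K) ≠ 0 := by exact_mod_cast Fintype.card_ne_zero
  have h1 := finrank_gen_le hp ((S.act v.φ).toLinearMap.restrict v.stable) v.parts.part
    v.parts.internal v.parts.stable hq0 hkey hm c hc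
  refine le_trans ?_ h1
  change finrank W.K (eigenPart χ S.act S.P (v.φ ^ m)) ≤ _
  have hpow : ∀ (i : ℕ) (y : S.P), ((((S.act v.φ).toLinearMap.restrict v.stable) ^ i) y :
      W.H S.X) = S.act (v.φ ^ i) y := by
    intro i
    induction i with
    | zero => intro y; rw [pow_zero, pow_zero, map_one]; rfl
    | succ i ih =>
      intro y
      rw [pow_succ, Module.End.mul_apply, ih, pow_succ, map_mul, AlgEquiv.mul_apply]
      rfl
  have hχ : (χ (v.φ ^ m) : W.K) = (Fintype.card v.κ : W.K) ^ m := by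
    rw [map_pow, Units.val_pow_eq_pow_val, v.frob]
  have hcomp : ∀ (i : ℕ) (y : S.P), (((((S.act v.φ).toLinearMap.restrict v.stable) ^ m
      - (Fintype.card v.κ : W.K) ^ m • (1 : Module.End W.K S.P)) ^ i) y : W.H S.X) =
      (((S.act (v.φ ^ m)).toLinearMap - (χ (v.φ ^ m) : W.K) • 1) ^ i) y := by
    intro i
    induction i with
    | zero => intro y; rfl
    | succ i ih =>
      intro y
      rw [pow_succ, Module.End.mul_apply, ih, pow_succ, Module.End.mul_apply]
      congr 1
      rw [LinearMap.sub_apply, LinearMap.sub_apply, Submodule.coe_sub, hpow, hχ]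
      rfl
  let f : eigenPart χ S.act S.P (v.φ ^ m) →ₗ[W.K] Module.End.maxGenEigenspace
      (((S.act v.φ).toLinearMap.restrict v.stable) ^ m) ((Fintype.card v.κ : W.K) ^ m) :=
    ((Submodule.inclusion (inf_le_right : eigenPart χ S.act S.P (v.φ ^ m) ≤ S.P))).codRestrict _
      fun x => by
        obtain ⟨i, hi⟩ := (Module.End.mem_maxGenEigenspace _ _ _).1 x.2.1
        refine (Module.End.mem_maxGenEigenspace _ _ _).2 ⟨i, ?_⟩
        apply Subtype.ext
        rw [hcomp]
        exact hi
  have hf : Function.Injective f := by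
    intro x y hxy
    apply Subtype.ext
    have h3 := congrArg Subtype.val hxy
    have h4 := congrArg (fun z : S.P => (z : W.H S.X)) h3
    exact h4
  exact LinearMap.finrank_le_finrank_of_injective hf

/-- **All parts.** -/
theorem main (h : Cover χ S 1) (hp : p.Prime) (hs : 1 ≤ s) (v : CyclicPlace χ S.act S.P p s H)
    {m : ℕ} (hm : 0 < m) (c : ℕ → ℕ) (hc : DividesAt p H c m) :
    BoundAt χ S (v.φ ^ m) (levelBound p s c m) where
  bound := multiplicityIn_le hp hs v hm c hc
  attained := fun h1 => tateForDivisors_of h v.stable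
    ((multiplicityIn_le hp hs v hm c hc).trans h1)
  zero := fun h1 => tateForDivisors_of h v.stable
    ((multiplicityIn_le hp hs v hm c hc).trans (h1 ▸ Nat.zero_le _))

theorem levelBound_zero (p s m : ℕ) : levelBound p s (fun _ => 0) m = 0 := by simp [levelBound]

theorem main_layers (h : Cover χ S 1) (hp : p.Prime) (hs : 1 ≤ s)
    (v : CyclicPlace χ S.act S.P p s H) (hH : H.eval 1 ≠ 0) (a : ℕ) :
    TateForDivisors χ S (v.φ ^ p ^ a) := by
  refine (main h hp hs v (pow_pos hp.pos a) (fun _ => 0) fun M hM hMp hdvd => ?_).zero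
    (levelBound_zero _ _ _)
  have h1 : M = 1 := by
    obtain ⟨i, -, hi⟩ := (Nat.dvd_prime_pow hp).1 hM
    rcases Nat.eq_zero_or_pos i with rfl | h0
    · rw [hi, pow_zero]
    · exact absurd (hi ▸ dvd_pow_self p h0.ne') hMp
  rw [h1, zero_add, pow_one, cyclotomic_one, ← C_1, dvd_iff_isRoot] at hdvd
  exact hH hdvd

end Pool.Agent.Run7.h735.CF
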